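import Pool.Agent.H2.ST.Targets

/-!
Symplectic torus actions: the weights of polynomials of bounded degree are bounded.
-/

set_option autoImplicit false

namespace Pool.Agent.H50.ST2

open Pool.Agent.H2.ST MvPolynomial

section box

variable {k A : Type} [Field k] [CommRing A] [Algebra k A] {d : ℕ}
  {W : (Fin d → ℤ) → Submodule k A}

/-- all weights of `f` are bounded by `n` -/
def Bx (h : Gr W) (n : ℕ) (f : A) : Prop :=
  ∀ χ, cmp h f χ ≠ 0 → ∀ l, |χ l| ≤ (n : ℤ)

theorem Bx.mono {h : Gr W} {n n' : ℕ} {f : A} (hn : n ≤ n') (hf : Bx h n f) : Bx h n' f :=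
  fun χ hχ l => (hf χ hχ l).trans (by exact_mod_cast hn)

theorem Bx.add {h : Gr W} {n : ℕ} {f g : A} (hf : Bx h n f) (hg : Bx h n g) :
    Bx h n (f + g) := by
  intro χ hχ l
  rw [map_add, Finsupp.add_apply] at hχ
  by_cases h1 : cmp h f χ = 0
  · rw [h1, zero_add] at hχ
    exact hg χ hχ l
  · exact hf χ h1 l

theorem Bx.zero {h : Gr W} {n : ℕ} : Bx h n 0 := by
  intro χ hχ
  rw [map_zero, Finsupp.zero_apply] at hχ
  exact absurd rfl hχ

theorem Bx.sum {h : Gr W} {n : ℕ} {ι : Type} (s : Finset ι) (f : ι → A)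
    (hf : ∀ i ∈ s, Bx h n (f i)) : Bx h n (∑ i ∈ s, f i) := by
  classical
  induction s using Finset.induction_on with
  | empty => rw [Finset.sum_empty]; exact Bx.zero
  | insert i s hi ih =>
    rw [Finset.sum_insert hi]
    exact (hf i (Finset.mem_insert_self _ _)).add
      (ih fun j hj => hf j (Finset.mem_insert_of_mem hj))

theorem Bx.of_mem {h : Gr W} {f : A} (hf : f ∈ W 0) : Bx h 0 f := by
  classical
  intro χ hχ l
  rw [cmp_of_mem h hf, Finsupp.single_apply] at hχ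
  by_cases h1 : (0 : Fin d → ℤ) = χ
  · rw [← h1]
    simp
  · rw [if_neg h1] at hχ
    exact absurd rfl hχ

theorem cmp_mul_ne {h : Gr W} {f g : A} {χ : Fin d → ℤ} (hχ : cmp h (f * g) χ ≠ 0) :
    ∃ χ', cmp h g χ' ≠ 0 ∧ cmp h f (χ - χ') ≠ 0 := by
  classical
  have h1 : f * g = ∑ χ' ∈ (cmp h g).support, f * cmp h g χ' := by
    conv_lhs => rw [← cmp_sum h g]
    unfold Finsupp.sum
    rw [Finset.mul_sum]
  rw [h1, map_sum, Finsupp.finsetSum_apply] at hχ
  obtain ⟨χ', h2, h3⟩ := Finset.exists_ne_zero_of_sum_ne_zero hχ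
  refine ⟨χ', Finsupp.mem_support_iff.1 h2, fun h4 => h3 ?_⟩
  have h5 := cmp_mul_of_mem h (cmp_mem h g χ') f (χ - χ')
  rw [sub_add_cancel] at h5
  rw [h5, h4, zero_mul]

theorem Bx.mul {h : Gr W} {n n' : ℕ} {f g : A} (hf : Bx h n f) (hg : Bx h n' g) :
    Bx h (n + n') (f * g) := by
  intro χ hχ l
  obtain ⟨χ', h1, h2⟩ := cmp_mul_ne hχ
  have h3 := hg χ' h1 l
  have h4 := hf _ h2 l
  have h5 : χ l = (χ - χ') l + χ' l := by simp
  rw [h5]
  refine (abs_add_le _ _).trans ?_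
  push_cast
  linarith

theorem Bx.pow {h : Gr W} {n : ℕ} {f : A} (hf : Bx h n f) (j : ℕ) : Bx h (n * j) (f ^ j) := by
  induction j with
  | zero =>
    rw [pow_zero]
    exact Bx.mono (Nat.zero_le _) (Bx.of_mem h.one)
  | succ j ih =>
    rw [pow_succ]
    exact Bx.mono (by rw [Nat.mul_succ]) (ih.mul hf)

theorem Bx.prod {h : Gr W} {ι : Type} (s : Finset ι) (f : ι → A) (n : ι → ℕ)
    (hf : ∀ i ∈ s, Bx h (n i) (f i)) : Bx h (∑ i ∈ s, n i) (∏ i ∈ s, f i) := by
  classical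
  induction s using Finset.induction_on with
  | empty =>
    rw [Finset.prod_empty, Finset.sum_empty]
    exact Bx.of_mem h.one
  | insert i s hi ih =>
    rw [Finset.prod_insert hi, Finset.sum_insert hi]
    exact (hf i (Finset.mem_insert_self _ _)).mul
      (ih fun j hj => hf j (Finset.mem_insert_of_mem hj))

theorem Bx.exists (h : Gr W) (f : A) : ∃ n, Bx h n f := by
  classical
  refine ⟨(∑ χ ∈ (cmp h f).support, ∑ l, |χ l|).toNat, fun χ hχ l => ?_⟩
  have h0 : (0 : ℤ) ≤ ∑ χ ∈ (cmp h f).support, ∑ l, |χ l| :=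
    Finset.sum_nonneg fun _ _ => Finset.sum_nonneg fun _ _ => abs_nonneg _
  rw [Int.toNat_of_nonneg h0]
  have h1 : |χ l| ≤ ∑ l, |χ l| :=
    Finset.single_le_sum (f := fun l => |χ l|) (fun _ _ => abs_nonneg _) (Finset.mem_univ l)
  have h2 : (∑ l, |χ l|) ≤ ∑ χ ∈ (cmp h f).support, ∑ l, |χ l| :=
    Finset.single_le_sum (f := fun χ : Fin d → ℤ => ∑ l, |χ l|)
      (fun _ _ => Finset.sum_nonneg fun _ _ => abs_nonneg _) (Finsupp.mem_support_iff.2 hχ)
  exact h1.trans h2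

end box

theorem pf_BOX : T_BOX := by
  classical
  intro k _ m d W h
  have h1 : ∀ s : Fin m ⊕ Fin m, ∃ n, Bx h.toGr n (X s : Pol k m) := fun s =>
    Bx.exists h.toGr _
  choose n hn using h1
  have hB : ∀ s, Bx h.toGr (∑ s, n s) (X s : Pol k m) := fun s =>
    Bx.mono (Finset.single_le_sum (f := n) (fun _ _ => Nat.zero_le _) (Finset.mem_univ s)) (hn s)
  refine ⟨∑ s, n s, fun N f hf => ?_⟩
  set B := ∑ s, n s with hBdef
  have h2 : Bx h.toGr (B * N) f := by
    have h3 : f = ∑ e ∈ f.support, monomial e (coeff e f) := (MvPolynomial.support_sum_monomial_coeff f).symm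
    rw [h3]
    refine Bx.sum _ _ fun e he => ?_
    have h4 : (e.sum fun _ j => j) ≤ N := (MvPolynomial.le_totalDegree he).trans hf
    rw [MvPolynomial.monomial_eq]
    have h5 : Bx h.toGr (∑ s ∈ e.support, B * e s) (e.prod fun s j => (X s : Pol k m) ^ j) := by
      unfold Finsupp.prod
      exact Bx.prod _ _ _ fun s _ => (hB s).pow _
    have h6 : Bx h.toGr 0 (C (coeff e f) : Pol k m) := Bx.of_mem (algebraMap_mem_gr h.toGr _)
    refine Bx.mono ?_ (h6.mul h5)
    rw [zero_add, ← Finset.mul_sum]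
    exact Nat.mul_le_mul_left _ h4
  intro χ hχ l
  exact_mod_cast h2 χ hχ l

end Pool.Agent.H50.ST2
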