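import Pool.Agent.H2.ST.Targets

/-!
Symplectic torus actions: if the kernel is finite then the weights span.
-/

set_option autoImplicit false

namespace Pool.Agent.H50.ST2

open Pool.Agent.H2.ST MvPolynomial

theorem infinite_units (k : Type) [Field k] [Infinite k] : Infinite kˣ := by
  rw [(unitsEquivNeZero : kˣ ≃ {a : k // a ≠ 0}).infinite_iff]
  have h : ({0}ᶜ : Set k).Infinite := (Set.finite_singleton (0 : k)).infinite_compl
  exact Set.infinite_coe_iff.2 h

theorem finite_zpow_eq_one (k : Type) [Field k] {n : ℤ} (hn : n ≠ 0) :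
    {s : kˣ | s ^ n = 1}.Finite := by
  have hne : NeZero n.natAbs := ⟨Int.natAbs_ne_zero.2 hn⟩
  have h1 : {s : kˣ | s ^ n = 1} ⊆ (rootsOfUnity n.natAbs k : Set kˣ) := by
    intro s hs
    change s ^ n = 1 at hs
    change s ∈ rootsOfUnity n.natAbs k
    rw [mem_rootsOfUnity]
    rcases Int.natAbs_eq n with h | h
    · rw [h, zpow_natCast] at hs
      exact hs
    · rw [h, zpow_neg, zpow_natCast, inv_eq_one] at hs
      exact hs
  have h2 : Finite (rootsOfUnity n.natAbs k) := inferInstance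
  exact Set.Finite.subset (Set.finite_coe_iff.1 h2) h1

theorem pf_SPN (h1 : T_KRL) : T_SPN := by
  classical
  intro k _ _ m d ρ y w hW hy hfin l hl
  by_contra hcon
  push Not at hcon
  have hu := infinite_units k
  let t : kˣ → (Fin d → kˣ) := fun s j => s ^ (l j)
  have hchr : ∀ (s : kˣ) (χ : Fin d → ℤ) (f : Pol k m), f ∈ Wt ρ χ → f ≠ 0 → chr χ (t s) = 1 := by
    intro s χ f hf hf0
    have h2 : ∃ α : Fin m ⊕ Fin m →₀ ℕ, wtm w α = χ := by
      by_contra h3
      push Not at h3
      exact hf0 ((h1 k m (Fin d → ℤ) (Wt ρ) y w hW hy χ f hf).1 h3)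
    obtain ⟨α, rfl⟩ := h2
    unfold chr
    have h4 : ∀ j, (t s j) ^ (wtm w α j) = s ^ (l j * wtm w α j) := by
      intro j
      change (s ^ (l j)) ^ (wtm w α j) = _
      rw [zpow_mul]
    simp only [h4]
    have h5 : ∀ S : Finset (Fin d), ∏ j ∈ S, s ^ (l j * wtm w α j) =
        s ^ (∑ j ∈ S, l j * wtm w α j) := by
      intro S
      induction S using Finset.induction_on with
      | empty => simp
      | insert a S ha ih => rw [Finset.prod_insert ha, Finset.sum_insert ha, zpow_add, ih]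
    rw [h5]
    have h6 : ∑ j, l j * wtm w α j = 0 := by
      unfold wtm
      simp only [Finset.sum_apply, Pi.smul_apply, smul_eq_mul, Finset.mul_sum]
      rw [Finset.sum_comm]
      refine Finset.sum_eq_zero fun i _ => ?_
      have h7 := hcon i
      have h8 : ∑ j, l j * (((α (Sum.inl i) : ℤ) - (α (Sum.inr i) : ℤ)) * w i j) =
          ((α (Sum.inl i) : ℤ) - (α (Sum.inr i) : ℤ)) * ∑ j, l j * w i j := by
        rw [Finset.mul_sum]
        exact Finset.sum_congr rfl fun j _ => by ring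
      rw [h8, h7, mul_zero]
    rw [h6, zpow_zero]
  have hone : ∀ s : kˣ, ρ (t s) = 1 := by
    intro s
    ext1 f
    change ρ (t s) f = f
    have h3 := cmp_sum hW.toGr f
    conv_lhs => rw [← h3]
    conv_rhs => rw [← h3]
    unfold Finsupp.sum
    rw [map_sum]
    refine Finset.sum_congr rfl fun χ hχ => ?_
    have h4 := cmp_mem hW.toGr f χ
    have h5 := hchr s χ _ h4 (Finsupp.mem_support_iff.1 hχ)
    have h6 := h4 (t s)
    rw [h6, h5, Units.val_one, one_smul]
  have hfs : Finite {t : Fin d → kˣ // ρ t = 1} := hfin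
  obtain ⟨j, hj⟩ : ∃ j, l j ≠ 0 := by
    by_contra h3
    push Not at h3
    exact hl (funext h3)
  obtain ⟨a, ha⟩ := Finite.exists_infinite_fiber
    (fun s : kˣ => (⟨t s, hone s⟩ : {t : Fin d → kˣ // ρ t = 1}))
  have ha' : ((fun s : kˣ => (⟨t s, hone s⟩ : {t : Fin d → kˣ // ρ t = 1})) ⁻¹' {a}).Infinite :=
    Set.infinite_coe_iff.1 ha
  obtain ⟨s0, hs0⟩ := ha'.nonempty
  refine ha' (((finite_zpow_eq_one k hj).image (fun s => s * s0)).subset ?_)
  intro s hs
  refine ⟨s * s0⁻¹, ?_, by simp⟩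
  change (s * s0⁻¹) ^ (l j) = 1
  have h4 : (⟨t s, hone s⟩ : {t : Fin d → kˣ // ρ t = 1}) = ⟨t s0, hone s0⟩ := by
    rw [Set.mem_preimage, Set.mem_singleton_iff] at hs hs0
    rw [hs, hs0]
  have h5 := congrFun (congrArg Subtype.val h4) j
  change s ^ (l j) = s0 ^ (l j) at h5
  rw [mul_zpow, inv_zpow, h5, mul_inv_cancel]

end Pool.Agent.H50.ST2
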